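import Mathlib
import Pool.Agent.Helper354.GLFinal

set_option autoImplicit false

universe u v

namespace Pool.Agent.Results.MP_3fc405_al.WidthOne

/-- For every division ring `D` and every infinite-dimensional `D`-vector space `V` (any
dimension, any universes), every element of `GL(V)` is a single commutator `a⁻¹ b⁻¹ a b`.
Moreover one conjugacy class (that of `s`) is enough: `b` can be taken conjugate to `s`, the
element `s` is conjugate to its inverse, and every `g` is a product of two conjugates of `s`. -/
theorem result {D : Type u} [DivisionRing D] {V : Type v} [AddCommGroup V] [Module D V]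
    (hV : ¬ Module.Finite D V) :
    ∃ s : V ≃ₗ[D] V, IsConj s s⁻¹ ∧
      (∀ g : V ≃ₗ[D] V, ∃ b c : V ≃ₗ[D] V, IsConj s b ∧ IsConj s c ∧ g = b * c) ∧
      (∀ g : V ≃ₗ[D] V, ∃ a b : V ≃ₗ[D] V, IsConj s b ∧ g = a⁻¹ * b⁻¹ * a * b) :=
  Pool.Helper354.GL.final hV

end Pool.Agent.Results.MP_3fc405_al.WidthOne
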